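import Pool.Agent.H601.N1.Main

/-!
# MP_12a1af_nt: how many scales can be covered when the representation function is bounded?

`rep A n = r_A(n)` is the number of ordered pairs `(a, b) ∈ A × A` with `a + b = n`, and
`covered A W K` is the number of the `k < K` such that `A + A` contains the whole interval
`[2 ^ k, 2 ^ (k + W))`.  So `A` is an asymptotic basis of order 2 if and only if `covered A 1 K`
is at least `K - O(1)`; the conjecture of Erdős and Turán (Q1) says that this is impossible for
bounded `r_A`.

1. (Construction.)  There is a constant `C` such that for all `D` and `W` there is a set `A` with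

     `r_A(n) ≤ C ^ (D + 1) (W + 2) / log (W + 2)` for all `n`,
     `covered A W K ≥ c (log K) ^ D` for all large `K` (some `c > 0`).

   So among the first `K` scales a set with `r_A ≤ R` can cover at least `c (log K) ^ (c₁ log R)`
   of them.
2. (Sidon sets.)  For all `m`, `g` there is a constant `C` such that `covered A 1 K ≤ C log K`
   (`K ≥ 2`) for every union `A` of `m` sets in which every positive difference occurs at most
   `g` times; in particular for every union of `m` Sidon sets.

The second part is the argument of Erdős for Sidon sets, applied to all scales; the first part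
shows that its conclusion is false for the sets with bounded `r_A` (the sets `B_2[g]`), with any
power of the logarithm: the sets of part 1 with `D ≥ 2` are not finite unions of sets with bounded
difference functions, and on the average over `i ≤ log K` they have at least `c (log K) ^ (D - 1)`
covered scales in `[2 ^ i, 2 ^ (i + 1))`.

Construction of part 1, by induction on `D`.  Let `T` be the set of the step before.  For primes
`p_i` with `2 ^ e_i < p_i < 2 ^ (e_i + 1)`, `e_i = 8 ^ (i + i₀)`, let `S_i` be a set of Ruzsa type
of integers of the size of `m_i = p_i ^ 2` (three parabolas modulo `p_i`): `S_i + S_i` contains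
all the integers of `[6 m_i, 2 ^ 20 m_i)`, `r_{S_i}` is bounded, and every interval of length
`p_i` contains boundedly many elements of `S_i`.  Put
`A = ⋃ (S_i + m_i (T ∩ [0, 2 ^ e_i)))`.
The scale `log₂ m_i + j + 4` is covered if the scale `j < 8 ^ i` is covered by `T`, the wide
blocks `S_i + m_i (T ∩ [0, 2 ^ e_i))` have representation functions at most a constant times
`max r_T`, and since all the lower blocks lie in `[0, p_i)` and an interval of length `p_i`
contains boundedly many elements of the block `i`, the different blocks contribute only a constant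
to `r_A`.  The start of the induction is the set of `SparseBasis` (starting files), cut off.
-/

set_option autoImplicit false

open Filter

namespace Pool.Agent.Results.MP_12a1af_nt.CoveredScales

/-- `rep A n = r_A(n)`: the number of ordered pairs `(a, b)` of elements of `A` with `a + b = n` -/
noncomputable def rep (A : Set ℕ) (n : ℕ) : ℕ :=
  {x : ℕ × ℕ | x.1 ∈ A ∧ x.2 ∈ A ∧ x.1 + x.2 = n}.ncard

/-- `covered A W K`: the number of the `k < K` such that all the integers `n` with
`2 ^ k ≤ n < 2 ^ (k + W)` are sums of two elements of `A` -/
noncomputable def covered (A : Set ℕ) (W K : ℕ) : ℕ :=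
  {k : ℕ | k < K ∧ ∀ n, 2 ^ k ≤ n → n < 2 ^ (k + W) → ∃ a ∈ A, ∃ b ∈ A, a + b = n}.ncard

/-- every positive integer is the difference of at most `g` pairs of elements of `B` (`g = 1`: `B`
is a Sidon set) -/
def DifferencesAtMost (B : Set ℕ) (g : ℕ) : Prop :=
  ∀ d : ℕ, 1 ≤ d → {x : ℕ × ℕ | x.1 ∈ B ∧ x.2 ∈ B ∧ x.1 = x.2 + d}.encard ≤ g

theorem result :
    (∃ C : ℝ, 1 ≤ C ∧ ∀ D W : ℕ, ∃ A : Set ℕ,
      (∀ n, (rep A n : ℝ) ≤ C ^ (D + 1) * (((W : ℝ) + 2) / Real.log ((W : ℝ) + 2))) ∧
      ∃ c : ℝ, 0 < c ∧ ∀ᶠ K : ℕ in atTop, c * Real.log K ^ D ≤ covered A W K) ∧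
    (∀ m g : ℕ, ∃ C : ℝ, 0 < C ∧ ∀ B : Fin m → Set ℕ, (∀ i, DifferencesAtMost (B i) g) →
      ∀ K : ℕ, 2 ≤ K → (covered (⋃ i, B i) 1 K : ℝ) ≤ C * Real.log K) :=
  ⟨Pool.Agent.H601.N1.lower, Pool.Agent.H601.N1.upper⟩

end Pool.Agent.Results.MP_12a1af_nt.CoveredScales
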