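import Pool.Agent.H601.BG.Param
import Pool.Agent.H601.BH.Param
import Pool.Agent.H601.BG.Seq
import Pool.Agent.H601.FP.All

open Filter

namespace Pool.Agent.Results.MP_12a1af_nt.DenseBoundedRepresentations

/-- There is an infinite set `A` of positive integers, with increasing enumeration
`a_0 < a_1 < ⋯`, such that every `n` has at most `g` representations `n = x + y` with `x ≤ y` in `A`
(so at most `2 g` ordered ones), `|A ∩ [1, N]| ≥ N ^ (c - ε)` for all large `N` and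
`a_n ≤ C_ε (n + 1) ^ (1 / c + ε)` for all `n`, for every `ε > 0`. -/
def HasDenseSet (g : ℕ) (c : ℝ) : Prop :=
  ∃ (A : Set ℕ) (a : ℕ → ℕ), (∀ x ∈ A, 0 < x) ∧ StrictMono a ∧ Set.range a = A ∧
    (∀ n, {p : ℕ × ℕ | p.1 ∈ A ∧ p.2 ∈ A ∧ p.1 ≤ p.2 ∧ p.1 + p.2 = n}.ncard ≤ g) ∧
    (∀ n, {p : ℕ × ℕ | p.1 ∈ A ∧ p.2 ∈ A ∧ p.1 + p.2 = n}.ncard ≤ 2 * g) ∧
    (∀ ε : ℝ, 0 < ε → ∀ᶠ N : ℕ in atTop,
      (N:ℝ)^(c - ε) ≤ ((A ∩ Set.Icc 1 N).ncard : ℝ)) ∧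
    (∀ ε : ℝ, 0 < ε → ∃ C : ℝ, 0 < C ∧ ∀ n : ℕ, (a n : ℝ) ≤ C * ((n:ℝ) + 1)^(1/c + ε))

open Pool.Agent.H601.BG in
/-- Sets with at most `g` representations of every integer and many elements: for every `g ≥ 1` the
exponent of the counting function can be any `c < 1 / 2 - 3 / (8 (2 g + 1))`, and for `g = 2`, `g = 3` it can
be `√6 - 2`, `(√11 - 1) / 5`. -/
theorem result : (∀ g : ℕ, 1 ≤ g → ∀ c : ℝ, 0 < c → c < 1 / 2 - 3 / (8 * (2 * (g : ℝ) + 1)) →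
    HasDenseSet g c) ∧
    HasDenseSet 2 (√6 - 2) ∧ HasDenseSet 3 ((√11 - 1) / 5) := by
  refine ⟨?_, ?_, ?_⟩
  · intro g hg c hc0 hc
    obtain ⟨A, h1, h2, h3⟩ := Pool.Agent.H601.FP.main g hg c hc0 hc
    have h4 : ∀ ε : ℝ, 0 < ε → ∀ᶠ N : ℕ in atTop,
        (N:ℝ)^(c - ε) ≤ ((A ∩ Set.Icc 1 N).ncard : ℝ) := by
      intro ε hε
      filter_upwards [h3, eventually_ge_atTop 1] with N hN hN1
      refine le_trans ?_ hN
      exact Real.rpow_le_rpow_of_exponent_le (by exact_mod_cast hN1) (by linarith)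
    obtain ⟨a, a1, a2, a3⟩ := seq_of_growth A h1 c hc0 h4
    exact ⟨A, a, h1, a1, a2, h2, fun n => ordered_le A n g (h2 n), h4, a3⟩
  · obtain ⟨A, h1, h2, h3⟩ := Pool.Agent.H601.BG.main
    have hc : (0:ℝ) < √6 - 2 := by
      have := sqrt6_lo
      linarith
    obtain ⟨a, a1, a2, a3⟩ := seq_of_growth A h1 (√6 - 2) hc h3
    exact ⟨A, a, h1, a1, a2, h2, fun n => ordered_le A n 2 (h2 n), h3, a3⟩
  · obtain ⟨A, h1, h2, h3⟩ := Pool.Agent.H601.BH.main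
    have hc : (0:ℝ) < (√11 - 1) / 5 := by
      have := Pool.Agent.H601.BH.sqrt11_lo
      linarith
    obtain ⟨a, a1, a2, a3⟩ := seq_of_growth A h1 ((√11 - 1) / 5) hc h3
    exact ⟨A, a, h1, a1, a2, h2, fun n => ordered_le A n 3 (h2 n), h3, a3⟩

end Pool.Agent.Results.MP_12a1af_nt.DenseBoundedRepresentations
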