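import Pool.Agent.H708.ET.Diag

/-!
# MP_12a1af_nt: a basis whose representation function is `(log n) ^ o(1)` on the average scale

`rep A n` is the number `r_A(n)` of ordered pairs `(a, b) ∈ A × A` with `a + b = n`, and
`scaleMax A k` is the largest value of `r_A` on the dyadic interval `[2 ^ k, 2 ^ (k + 1))`.

There is one set `A` such that
* every `n` is a sum of two elements of `A` (no number and no scale is missed);
* `r_A(n) ≤ C log n / log log n` for all `n ≥ 3`;
* the mean of `scaleMax A k` over the scales `k < K` is at most `C_ε K ^ ε`, for every `ε > 0`.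

So the number of the scales `k < K` on which `r_A` exceeds `K ^ δ` is at most `C_ε K ^ (1 - δ + ε)`.

Construction.  Let `B` be a basis already constructed. A class of `A` is attached to a prime `p` of
about `κ` bits and consists of `d + p t`, where `d` runs through a set `D` of residues modulo `p`
with `D + D = ℤ/p` and a bounded representation function, and `t` through the elements of `B` with
at most `u` bits, `u` about `κ ^ (1 - 1 / d)`. The sums `d + d' + p (t + t')` cover about `8 u`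
consecutive scales with `r_A ≤ C r_B`. Successive classes touch, so that no scale is missed. Each
class consists of `J + 1` blocks, with `t` of at most `x, x ^ 2, …, x ^ J, u` bits and shifted
(the shift of the block `j` has `8 x ^ j` bits): the class is thinned near the place where it meets
the preceding one in such a way that, at the distance of `x ^ j` scales of the boundary, only
`κ / x ^ j` hits between different classes occur for any `n`. The dilations of the sets `D` are
chosen by a counting argument. This gives a bound for the sum of the maxima over a class of about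
`x κ + u κ / x ^ J` plus the corresponding sum for `B`, and the exponent `2 / d` is replaced by
`2 / (d + 1)`.  For the set of the theorem the bases `B` are taken further and further from the
sequence of bases so obtained.
-/

set_option autoImplicit false

namespace Pool.Agent.Results.MP_12a1af_nt.MeanOverScales

/-- `rep A n = r_A(n)`: the number of ordered pairs `(a, b)` of elements of `A` with `a + b = n` -/
noncomputable def rep (A : Set ℕ) (n : ℕ) : ℕ :=
  {x : ℕ × ℕ | x.1 ∈ A ∧ x.2 ∈ A ∧ x.1 + x.2 = n}.ncard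

/-- `scaleMax A k`: the maximum of `r_A(n)` over `2 ^ k ≤ n < 2 ^ (k + 1)` -/
noncomputable def scaleMax (A : Set ℕ) (k : ℕ) : ℕ :=
  (Finset.Ico (2 ^ k) (2 ^ (k + 1))).sup (rep A)

theorem log_bounds {n : ℕ} (hn : 3 ≤ n) :
    1 < Real.log n ∧ ((Nat.log 2 n + 1 : ℕ) : ℝ) ≤ 3 * Real.log n := by
  have h1 : 1 < Real.log n := Pool.Agent.H125R2.ET.T22.one_lt_log hn
  refine ⟨h1, ?_⟩
  have h2 : 2 ^ Nat.log 2 n ≤ n := Nat.pow_log_le_self 2 (by omega)
  have h3 : ((2 : ℝ)) ^ Nat.log 2 n ≤ n := by exact_mod_cast h2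
  have h4 : Real.log ((2 : ℝ) ^ Nat.log 2 n) ≤ Real.log n := Real.log_le_log (by positivity) h3
  rw [Real.log_pow] at h4
  have h5 := Real.log_two_gt_d9
  have h6 : (0 : ℝ) ≤ (Nat.log 2 n : ℝ) := Nat.cast_nonneg _
  push_cast
  nlinarith

/-- `log log n ≤ 2 log₂ (log₂ n + 2)` in terms of integral parts -/
theorem loglog_le {n : ℕ} (hn : 3 ≤ n) :
    Real.log (Real.log n) ≤ 2 * (Nat.log 2 (Nat.log 2 n + 2) : ℕ) := by
  obtain ⟨K, hK⟩ : ∃ K, K = Nat.log 2 n := ⟨_, rfl⟩
  obtain ⟨L, hL⟩ : ∃ L, L = Nat.log 2 (K + 2) := ⟨_, rfl⟩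
  rw [← hK, ← hL]
  have h0 := (log_bounds hn).1
  have h1 : Real.log n ≤ ((Nat.log 2 n + 1 : ℕ) : ℝ) :=
    Pool.Agent.Helper667_AS.log_le (show 1 ≤ n by omega)
  rw [← hK] at h1
  have h2 : K + 2 < 2 ^ (L + 1) := by
    rw [hL]
    exact Nat.lt_pow_succ_log_self (by norm_num) _
  have h3 : ((K + 1 : ℕ) : ℝ) ≤ (2 : ℝ) ^ (L + 1) := by
    have : K + 1 ≤ 2 ^ (L + 1) := by omega
    exact_mod_cast this
  have h4 : Real.log (Real.log n) ≤ Real.log ((2 : ℝ) ^ (L + 1)) :=
    Real.log_le_log (by linarith) (h1.trans h3)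
  rw [Real.log_pow] at h4
  have h5 : 1 ≤ L := by
    rw [hL]
    exact Pool.Agent.H708.ET.log2_pos K
  have h6 : (1 : ℝ) ≤ L := by exact_mod_cast h5
  have h7 := Real.log_two_lt_d9
  push_cast at h4
  nlinarith

/-- from `x ^ d ≤ y` to `x ≤ y ^ (1 / d)` -/
theorem root_le {x y : ℝ} {d : ℕ} (hd : d ≠ 0) (hx : 0 ≤ x) (h : x ^ d ≤ y) :
    x ≤ y ^ (1 / (d : ℝ)) := by
  have h1 : x = (x ^ d) ^ (1 / (d : ℝ)) := by
    rw [one_div, Real.pow_rpow_inv_natCast hx hd]
  rw [h1]
  exact Real.rpow_le_rpow (by positivity) h (by positivity)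

theorem result : ∃ A : Set ℕ,
    (∀ n : ℕ, ∃ a ∈ A, ∃ b ∈ A, a + b = n) ∧
    (∃ C : ℝ, ∀ n : ℕ, 3 ≤ n → (rep A n : ℝ) ≤ C * (Real.log n / Real.log (Real.log n))) ∧
    ∀ ε : ℝ, 0 < ε → ∃ C : ℝ, ∀ K : ℕ,
      ((∑ k ∈ Finset.range K, scaleMax A k : ℕ) : ℝ) ≤ C * (K : ℝ) ^ (1 + ε) := by
  obtain ⟨A, c, h1, h2, h3⟩ := Pool.Agent.H708.ET.diag
  refine ⟨A, h1, ⟨6 * c, fun n hn => ?_⟩, fun ε hε => ?_⟩
  · obtain ⟨g1, g2⟩ := log_bounds hn
    have g3 := loglog_le hn
    have g4 : 0 < Real.log (Real.log n) := Real.log_pos g1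
    have g5 : ((rep A n * Nat.log 2 (Nat.log 2 n + 2) : ℕ) : ℝ) ≤
        ((c * (Nat.log 2 n + 1) : ℕ) : ℝ) := by exact_mod_cast h2 n
    rw [Nat.cast_mul, Nat.cast_mul] at g5
    have g6 : (rep A n : ℝ) * Real.log (Real.log n) ≤ 6 * c * Real.log n := by
      calc (rep A n : ℝ) * Real.log (Real.log n)
          ≤ (rep A n : ℝ) * (2 * (Nat.log 2 (Nat.log 2 n + 2) : ℕ)) :=
            mul_le_mul_of_nonneg_left g3 (Nat.cast_nonneg _)
        _ = 2 * ((rep A n : ℝ) * (Nat.log 2 (Nat.log 2 n + 2) : ℕ)) := by ring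
        _ ≤ 2 * ((c : ℝ) * ((Nat.log 2 n + 1 : ℕ) : ℝ)) := by linarith
        _ ≤ 2 * ((c : ℝ) * (3 * Real.log n)) := by
            have := mul_le_mul_of_nonneg_left g2 (Nat.cast_nonneg (α := ℝ) c)
            linarith
        _ = 6 * c * Real.log n := by ring
    rw [← mul_div_assoc, le_div_iff₀ g4]
    exact g6
  · obtain ⟨D, hD⟩ := exists_nat_gt (3 / ε)
    have hD0 : (0 : ℝ) < D := lt_trans (by positivity) hD
    have hD1 : 1 ≤ D := by exact_mod_cast hD0
    obtain ⟨c', hc'⟩ := h3 D hD1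
    refine ⟨(c' : ℝ) ^ (1 / (D : ℝ)), fun K => ?_⟩
    have e1 : ((∑ k ∈ Finset.range K, scaleMax A k : ℕ) : ℝ) ^ D ≤ (c' : ℝ) * (K : ℝ) ^ (D + 3) := by
      exact_mod_cast hc' K
    have e2 := root_le (by omega) (Nat.cast_nonneg _) e1
    rcases Nat.eq_zero_or_pos K with h0 | h0
    · rw [h0, Finset.range_zero, Finset.sum_empty, Nat.cast_zero]
      positivity
    · have hK1 : (1 : ℝ) ≤ K := by exact_mod_cast h0
      refine e2.trans ?_
      rw [Real.mul_rpow (by positivity) (by positivity)]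
      refine mul_le_mul_of_nonneg_left ?_ (by positivity)
      rw [← Real.rpow_natCast, ← Real.rpow_mul (by positivity)]
      refine Real.rpow_le_rpow_of_exponent_le hK1 ?_
      rw [mul_one_div, div_le_iff₀ hD0]
      have e3 : 3 < ε * D := by
        rw [div_lt_iff₀ hε] at hD
        linarith
      push_cast
      nlinarith

end Pool.Agent.Results.MP_12a1af_nt.MeanOverScales
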