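import Mathlib

/-!
# The strong Erdős–Turán conjecture (Q2) amplifies itself

If some thick set `A` (infinite, `a_n ≤ C n ^ 2`) has `r_A(n) ≤ K` apart from popular sums which
are not too frequent, then the popular pairs can be removed, and Q2 is false. Precisely:

* `remove`: if for all `N` at least a fixed proportion of the elements `b ≤ N` of `A` has no
  very small partner with a popular sum, and the number of the pairs `N / 2l ≤ a < b ≤ N`
  with a popular sum is at most `L √N` (a bounded average number of comparable partners), then a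
  thick subset of `A` has a bounded representation function;
* `compactness`: hence, if Q2 is true, every thick set violates one of the two conditions at
  a bounded scale, uniformly in the set; this gives a universal function `F → ∞`.
-/

set_option autoImplicit false

open Filter Finset
open scoped Classical

namespace Pool.Agent.Results.MP_12a1af_nt.SelfAmplification

/-- `rep A n` is the number `r_A(n)` of ordered pairs of elements of `A` with sum `n`. -/
noncomputable def rep (A : Set ℕ) (n : ℕ) : ℕ :=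
  {p : ℕ × ℕ | p.1 ∈ A ∧ p.2 ∈ A ∧ p.1 + p.2 = n}.ncard

/-- The hypothesis of Q2: `A` is infinite and its `n`-th element is at most `C n ^ 2`. -/
def Quad (A : Set ℕ) : Prop :=
  A.Infinite ∧ ∃ C : ℕ, ∀ n : ℕ, 1 ≤ n → Nat.nth (· ∈ A) (n - 1) ≤ C * n ^ 2

/-- The number of the elements `b` of `A` with `1 ≤ b ≤ N` such that `r_A(a + b) < K` for all
elements `a` of `A` with `l * a ≤ b`. -/
noncomputable def quiet (A : Set ℕ) (l K N : ℕ) : ℕ :=
  {b : ℕ | b ∈ A ∧ 1 ≤ b ∧ b ≤ N ∧ ∀ a ∈ A, l * a ≤ b → rep A (a + b) < K}.ncard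

/-- The number of the pairs `a < b ≤ N` of elements of `A` with `N ≤ l * a` and
`r_A(a + b) ≥ K`. -/
noncomputable def popular (A : Set ℕ) (l K N : ℕ) : ℕ :=
  {p : ℕ × ℕ | p.1 ∈ A ∧ p.2 ∈ A ∧ p.1 < p.2 ∧ p.2 ≤ N ∧ N ≤ l * p.1 ∧
    K ≤ rep A (p.1 + p.2)}.ncard

/-- The number of the elements `b` of `A` with `a < b`, `N ≤ b < 2 N` and `r_A(a + b) > K`. -/
noncomputable def partners (A : Set ℕ) (K a N : ℕ) : ℕ :=
  {b : ℕ | b ∈ A ∧ a < b ∧ N ≤ b ∧ b < 2 * N ∧ K < rep A (a + b)}.ncard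

/-! ### The representation function -/

lemma rep_finite (A : Set ℕ) (n : ℕ) :
    {p : ℕ × ℕ | p.1 ∈ A ∧ p.2 ∈ A ∧ p.1 + p.2 = n}.Finite := by
  refine Set.Finite.subset ((Finset.range (n + 1)) ×ˢ (Finset.range (n + 1))).finite_toSet ?_
  rintro ⟨a, b⟩ ⟨_, _, h⟩
  simp only [coe_product, coe_range, Set.mem_prod, Set.mem_Iio]
  simp only at h
  omega

lemma rep_mono {A B : Set ℕ} (h : A ⊆ B) (n : ℕ) : rep A n ≤ rep B n := by
  refine Set.ncard_le_ncard ?_ (rep_finite B n)
  rintro ⟨a, b⟩ ⟨h1, h2, h3⟩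
  exact ⟨h h1, h h2, h3⟩

lemma rep_congr {A B : Set ℕ} {n : ℕ} (h : ∀ x ≤ n, (x ∈ A ↔ x ∈ B)) : rep A n = rep B n := by
  unfold rep
  congr 1
  ext ⟨a, b⟩
  constructor
  · rintro ⟨h1, h2, h3⟩
    simp only at h1 h2 h3
    exact ⟨(h a (by omega)).1 h1, (h b (by omega)).1 h2, h3⟩
  · rintro ⟨h1, h2, h3⟩
    simp only at h1 h2 h3
    exact ⟨(h a (by omega)).2 h1, (h b (by omega)).2 h2, h3⟩

lemma rep_le (A : Set ℕ) (n : ℕ) : rep A n ≤ n + 1 := by
  have h : {p : ℕ × ℕ | p.1 ∈ A ∧ p.2 ∈ A ∧ p.1 + p.2 = n} ⊆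
      ((Finset.range (n + 1)).image (fun a => (a, n - a)) : Set (ℕ × ℕ)) := by
    rintro ⟨a, b⟩ ⟨_, _, h⟩
    simp only at h
    simp only [coe_image, coe_range, Set.mem_image, Set.mem_Iio, Prod.mk.injEq]
    exact ⟨a, by omega, rfl, by omega⟩
  have h1 := Set.ncard_le_ncard h (Finset.finite_toSet _)
  rw [Set.ncard_coe_finset] at h1
  exact h1.trans (Finset.card_image_le.trans (by simp))

/-! ### The greedy subset -/

/-- Greedy selection: `b` is selected if it lies in `S` and no smaller selected `a` is related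
to it. -/
def sel (S : Set ℕ) (R : ℕ → ℕ → Prop) (b : ℕ) : Prop :=
  b ∈ S ∧ ∀ a : ℕ, (_h : a < b) → sel S R a → ¬ R a b
termination_by b

lemma sel_iff (S : Set ℕ) (R : ℕ → ℕ → Prop) (b : ℕ) :
    sel S R b ↔ b ∈ S ∧ ∀ a : ℕ, a < b → sel S R a → ¬ R a b := by
  rw [sel]

/-- The elements of `A` in `[1, N]`. -/
noncomputable def elts (A : Set ℕ) (N : ℕ) : Finset ℕ := (Icc 1 N).filter (fun a => a ∈ A)

lemma mem_elts {A : Set ℕ} {N a : ℕ} : a ∈ elts A N ↔ (1 ≤ a ∧ a ≤ N) ∧ a ∈ A := by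
  simp only [elts, mem_filter, mem_Icc]

/-- The number of elements of `A` in `[1, N]`. -/
noncomputable def cnt (A : Set ℕ) (N : ℕ) : ℕ := (elts A N).card

lemma cnt_eq (A : Set ℕ) (N : ℕ) : (A ∩ Set.Icc 1 N).ncard = cnt A N := by
  rw [cnt, ← Set.ncard_coe_finset]
  congr 1
  ext x
  rw [Finset.mem_coe, mem_elts]
  simp only [Set.mem_inter_iff, Set.mem_Icc]
  tauto

/-- The conditions at the scale `N`. -/
def Good (l L N : ℕ) (A : Set ℕ) : Prop :=
  Real.sqrt N ≤ L * (1 + quiet A l L N : ℝ) ∧ (popular A (2 * l) L N : ℝ) ≤ L * Real.sqrt N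

lemma Good_congr {l L N : ℕ} {A B : Set ℕ} (hl : 1 ≤ l) (h : ∀ x ≤ 2 * N, (x ∈ A ↔ x ∈ B))
    (hA : Good l L N A) : Good l L N B := by
  have hr : ∀ n ≤ 2 * N, rep A n = rep B n := fun n hn =>
    rep_congr fun x hx => h x (hx.trans hn)
  have h1 : quiet A l L N = quiet B l L N := by
    unfold quiet
    congr 1
    ext b
    constructor
    · rintro ⟨hb, hb1, hbN, hq⟩
      refine ⟨(h b (by omega)).1 hb, hb1, hbN, fun a ha hab => ?_⟩
      have hal : a ≤ l * a := Nat.le_mul_of_pos_left a hl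
      rw [← hr (a + b) (by omega)]
      exact hq a ((h a (by omega)).2 ha) hab
    · rintro ⟨hb, hb1, hbN, hq⟩
      refine ⟨(h b (by omega)).2 hb, hb1, hbN, fun a ha hab => ?_⟩
      have hal : a ≤ l * a := Nat.le_mul_of_pos_left a hl
      rw [hr (a + b) (by omega)]
      exact hq a ((h a (by omega)).1 ha) hab
  have h2 : popular A (2 * l) L N = popular B (2 * l) L N := by
    unfold popular
    congr 1
    ext ⟨a, b⟩
    constructor
    · rintro ⟨ha, hb, hab, hbN, hN, hL⟩
      simp only at ha hb hab hbN hN hL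
      rw [hr (a + b) (by omega)] at hL
      exact ⟨(h a (by omega)).1 ha, (h b (by omega)).1 hb, hab, hbN, hN, hL⟩
    · rintro ⟨ha, hb, hab, hbN, hN, hL⟩
      simp only at ha hb hab hbN hN hL
      rw [← hr (a + b) (by omega)] at hL
      exact ⟨(h a (by omega)).2 ha, (h b (by omega)).2 hb, hab, hbN, hN, hL⟩
  rw [Good, h1, h2] at hA
  exact hA

/-! ### Compactness -/

lemma compactness {l L : ℕ} (hl : 1 ≤ l)
    (h : ∀ M : ℕ, ∃ A : Set ℕ, ∀ N ≤ M, Good l L N A) : ∃ A : Set ℕ, ∀ N, Good l L N A := by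
  choose B hB using h
  let A : Set ℕ := {a | ∀ᶠ M in (hyperfilter ℕ : Filter ℕ), a ∈ B M}
  refine ⟨A, fun N => ?_⟩
  have h1 : ∀ x : ℕ, ∀ᶠ M in (hyperfilter ℕ : Filter ℕ), (x ∈ A ↔ x ∈ B M) := by
    intro x
    by_cases hx : x ∈ A
    · have h2 : ∀ᶠ M in (hyperfilter ℕ : Filter ℕ), x ∈ B M := hx
      filter_upwards [h2] with M hM
      exact ⟨fun _ => hM, fun _ => hx⟩
    · have h2 : ¬ ∀ᶠ M in (hyperfilter ℕ : Filter ℕ), x ∈ B M := hx
      rw [← Ultrafilter.eventually_not] at h2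
      filter_upwards [h2] with M hM
      exact ⟨fun h3 => (hx h3).elim, fun h3 => (hM h3).elim⟩
  have h3 : ∀ᶠ M in (hyperfilter ℕ : Filter ℕ), ∀ x ∈ Finset.range (2 * N + 1),
      (x ∈ A ↔ x ∈ B M) := by
    rw [Filter.eventually_all_finset]
    exact fun x _ => h1 x
  have h4 : ∀ᶠ M in (hyperfilter ℕ : Filter ℕ), N ≤ M := by
    have h5 : ∀ᶠ M in (Filter.cofinite : Filter ℕ), N ≤ M := by
      rw [Nat.cofinite_eq_atTop]
      exact eventually_ge_atTop N
    exact h5.filter_mono Filter.hyperfilter_le_cofinite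
  obtain ⟨M, hM1, hM2⟩ := (h3.and h4).exists
  refine Good_congr hl ?_ (hB M N hM2)
  intro x hx
  exact (hM1 x (by simp; omega)).symm

/-! ### Removing the popular pairs -/

/-- The quiet elements. -/
def Q (A : Set ℕ) (l L : ℕ) : Set ℕ :=
  {b : ℕ | b ∈ A ∧ 1 ≤ b ∧ ∀ a ∈ A, l * a ≤ b → rep A (a + b) < L}

lemma quiet_eq (A : Set ℕ) (l L N : ℕ) : quiet A l L N = cnt (Q A l L) N := by
  rw [quiet, cnt, ← Set.ncard_coe_finset]
  congr 1
  ext x
  rw [Finset.mem_coe, mem_elts]
  simp only [Q, Set.mem_ofPred_eq]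
  tauto

/-- The popular partners `b > a` of `a`. -/
noncomputable def nb (A : Set ℕ) (l L a : ℕ) : Finset ℕ :=
  (Icc 1 (l * a)).filter (fun b => b ∈ Q A l L ∧ a < b ∧ L ≤ rep A (a + b))

lemma mem_nb {A : Set ℕ} {l L a b : ℕ} (ha : a ∈ Q A l L) (hb : b ∈ Q A l L) (hab : a < b)
    (h : L ≤ rep A (a + b)) : b ∈ nb A l L a := by
  simp only [nb, mem_filter, mem_Icc]
  refine ⟨⟨hb.2.1, ?_⟩, hb, hab, h⟩
  by_contra hc
  have := hb.2.2 a ha.1 (by omega)
  omega

/-- The pairs with smaller element at most `N`. -/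
noncomputable def P (A : Set ℕ) (l L N : ℕ) : Finset (ℕ × ℕ) :=
  (Icc 1 N ×ˢ Icc 1 (l * N)).filter
    (fun p => p.1 ∈ Q A l L ∧ p.2 ∈ Q A l L ∧ p.1 < p.2 ∧ L ≤ rep A (p.1 + p.2))

lemma sum_nb_le (A : Set ℕ) (l L N : ℕ) :
    ∑ a ∈ elts (Q A l L) N, (nb A l L a).card ≤ (P A l L N).card := by
  rw [← Finset.card_sigma]
  refine Finset.card_le_card_of_injOn (fun x => (x.1, x.2)) ?_ ?_
  · rintro ⟨a, b⟩ h
    simp only [coe_sigma, Set.mem_sigma_iff, Finset.mem_coe, mem_elts, nb, mem_filter,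
      Finset.mem_Icc] at h
    obtain ⟨⟨⟨h1, h2⟩, h3⟩, ⟨h4, h5⟩, h6, h7, h8⟩ := h
    simp only [P, coe_filter, mem_product, mem_Icc, Set.mem_ofPred_eq]
    exact ⟨⟨⟨h1, h2⟩, h4, h5.trans (Nat.mul_le_mul_left l h2)⟩, h3, h6, h7, h8⟩
  · rintro ⟨a, b⟩ _ ⟨c, d⟩ _ h
    simp only [Prod.mk.injEq] at h
    obtain ⟨rfl, rfl⟩ := h
    rfl

lemma popular_finite (A : Set ℕ) (l K N : ℕ) :
    {p : ℕ × ℕ | p.1 ∈ A ∧ p.2 ∈ A ∧ p.1 < p.2 ∧ p.2 ≤ N ∧ N ≤ l * p.1 ∧
      K ≤ rep A (p.1 + p.2)}.Finite := by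
  refine Set.Finite.subset ((Finset.range (N + 1)) ×ˢ (Finset.range (N + 1))).finite_toSet ?_
  rintro ⟨a, b⟩ ⟨_, _, h, h2, _⟩
  simp only [coe_product, coe_range, Set.mem_prod, Set.mem_Iio]
  simp only at h h2
  omega

lemma P_step (A : Set ℕ) (l L N : ℕ) :
    (P A l L N).card ≤ (P A l L (N / 2)).card + popular A (2 * l) L (l * N) := by
  have h1 : (P A l L N).card = ((P A l L N : Set (ℕ × ℕ))).ncard := by
    rw [Set.ncard_coe_finset]
  have h2 : (P A l L (N / 2)).card = ((P A l L (N / 2) : Set (ℕ × ℕ))).ncard := by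
    rw [Set.ncard_coe_finset]
  rw [h1, h2]
  refine (Set.ncard_le_ncard ?_ ((Finset.finite_toSet _).union
    (popular_finite A (2 * l) L (l * N)))).trans (Set.ncard_union_le _ _)
  rintro ⟨a, b⟩ h
  simp only [P, coe_filter, mem_product, mem_Icc, Set.mem_ofPred_eq] at h
  obtain ⟨⟨⟨h1, h2⟩, h3, h4⟩, ha, hb, hab, hL⟩ := h
  have hba := mem_nb ha hb hab hL
  simp only [nb, mem_filter, mem_Icc] at hba
  by_cases hN : a ≤ N / 2
  · left
    simp only [P, coe_filter, mem_product, mem_Icc, Set.mem_ofPred_eq]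
    exact ⟨⟨⟨h1, hN⟩, h3, hba.1.2.trans (Nat.mul_le_mul_left l hN)⟩, ha, hb, hab, hL⟩
  · right
    refine ⟨ha.1, hb.1, hab, h4, ?_, hL⟩
    have h5 : N ≤ 2 * a := by omega
    calc l * N ≤ l * (2 * a) := Nat.mul_le_mul_left l h5
      _ = 2 * l * a := by ring

lemma P_bound {A : Set ℕ} {l L : ℕ}
    (h : ∀ N : ℕ, (popular A (2 * l) L N : ℝ) ≤ L * Real.sqrt N) (N : ℕ) :
    ((P A l L N).card : ℝ) ≤ 4 * (L * l) * Real.sqrt N := by
  induction N using Nat.strong_induction_on with
  | _ N ih =>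
    rcases Nat.eq_zero_or_pos N with h0 | h0
    · subst h0
      simp [P]
    · have h1 := ih (N / 2) (Nat.div_lt_self h0 (by norm_num))
      have h2 : ((P A l L N).card : ℝ) ≤ (P A l L (N / 2)).card +
          popular A (2 * l) L (l * N) := by exact_mod_cast P_step A l L N
      have h3 := h (l * N)
      have h4 : Real.sqrt ((l * N : ℕ) : ℝ) ≤ l * Real.sqrt N := by
        rw [Real.sqrt_le_left (by positivity), mul_pow, Real.sq_sqrt (by positivity)]
        have h5 : l ≤ l ^ 2 := by nlinarith [Nat.zero_le l, Nat.le_self_pow two_ne_zero l]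
        have h6 : (l : ℝ) ≤ (l : ℝ) ^ 2 := by exact_mod_cast h5
        push_cast
        exact mul_le_mul_of_nonneg_right h6 (by positivity)
      have h5 : Real.sqrt ((N / 2 : ℕ) : ℝ) ≤ 3 / 4 * Real.sqrt N := by
        rw [Real.sqrt_le_left (by positivity), mul_pow, Real.sq_sqrt (by positivity)]
        have h6 : ((N / 2 : ℕ) : ℝ) ≤ N / 2 := Nat.cast_div_le
        have h7 : (0 : ℝ) ≤ N := by positivity
        linarith
      have h6 : (0 : ℝ) ≤ L * l := by positivity
      have h7 : (0 : ℝ) ≤ L := by positivity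
      calc ((P A l L N).card : ℝ) ≤ (P A l L (N / 2)).card + popular A (2 * l) L (l * N) := h2
        _ ≤ 4 * (L * l) * Real.sqrt ((N / 2 : ℕ) : ℝ) + L * Real.sqrt ((l * N : ℕ) : ℝ) := by
            gcongr
        _ ≤ 4 * (L * l) * (3 / 4 * Real.sqrt N) + L * (l * Real.sqrt N) := by gcongr
        _ = 4 * (L * l) * Real.sqrt N := by ring

/-- **Removing the popular pairs.** -/
theorem remove {A : Set ℕ} {l L : ℕ} (hL : 1 ≤ L) (hl : 1 ≤ l) (h : ∀ N, Good l L N A) :
    ∃ B : Set ℕ, B ⊆ A ∧ (∃ C : ℕ, ∀ N : ℕ, Real.sqrt N ≤ C * (1 + cnt B N : ℝ)) ∧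
      ∀ n, rep B n ≤ L := by
  set D : ℕ := 8 * L ^ 2 * l with hD
  have hLr : (1 : ℝ) ≤ L := by exact_mod_cast hL
  have hlr : (1 : ℝ) ≤ l := by exact_mod_cast hl
  have hDpos : (0 : ℝ) < D := by
    rw [hD]; push_cast; positivity
  let S : Set ℕ := {a | a ∈ Q A l L ∧ (nb A l L a).card < D}
  let B : Set ℕ := {b | sel S (fun a b => L ≤ rep A (a + b)) b}
  have hBmem : ∀ b, b ∈ B ↔ b ∈ S ∧ ∀ a, a < b → a ∈ B → ¬ L ≤ rep A (a + b) := fun b =>
    sel_iff S _ b
  have hBS : B ⊆ S := fun b hb => ((hBmem b).1 hb).1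
  have hBA : B ⊆ A := fun b hb => (hBS hb).1.1
  refine ⟨B, hBA, ⟨2 * L * (1 + D), fun N => ?_⟩, fun n => ?_⟩
  · -- the number of elements
    have h1 : (quiet A l L N : ℝ) ≤ cnt S N +
        (((Icc 1 N).filter (fun a => a ∈ Q A l L ∧ D ≤ (nb A l L a).card)).card : ℝ) := by
      rw [quiet_eq]
      have : elts (Q A l L) N ⊆ elts S N ∪
          ((Icc 1 N).filter (fun a => a ∈ Q A l L ∧ D ≤ (nb A l L a).card)) := by
        intro a ha
        simp only [mem_elts, mem_filter, mem_Icc, mem_union] at ha ⊢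
        by_cases hc : (nb A l L a).card < D
        · left
          exact ⟨ha.1, ha.2, hc⟩
        · right
          exact ⟨ha.1, ha.2, by omega⟩
      have h2 := (Finset.card_le_card this).trans (Finset.card_union_le _ _)
      exact_mod_cast h2
    have h2 : (D : ℝ) * (((Icc 1 N).filter
        (fun a => a ∈ Q A l L ∧ D ≤ (nb A l L a).card)).card : ℝ) ≤ 4 * (L * l) * Real.sqrt N := by
      refine le_trans ?_ (P_bound (fun N => (h N).2) N)
      have h3 := sum_nb_le A l L N
      have h4 : D * ((Icc 1 N).filter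
          (fun a => a ∈ Q A l L ∧ D ≤ (nb A l L a).card)).card ≤
          ∑ a ∈ elts (Q A l L) N, (nb A l L a).card := by
        calc D * ((Icc 1 N).filter
            (fun a => a ∈ Q A l L ∧ D ≤ (nb A l L a).card)).card
            = ∑ a ∈ (Icc 1 N).filter
              (fun a => a ∈ Q A l L ∧ D ≤ (nb A l L a).card), D := by
                rw [Finset.sum_const, smul_eq_mul, mul_comm]
          _ ≤ ∑ a ∈ (Icc 1 N).filter
              (fun a => a ∈ Q A l L ∧ D ≤ (nb A l L a).card), (nb A l L a).card := by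
                refine Finset.sum_le_sum fun a ha => ?_
                simp only [mem_filter] at ha
                exact ha.2.2
          _ ≤ _ := by
                refine Finset.sum_le_sum_of_subset ?_
                intro a ha
                simp only [mem_elts, mem_filter, mem_Icc] at ha ⊢
                exact ⟨ha.1, ha.2.1⟩
      exact_mod_cast h4.trans h3
    have h3 : (((Icc 1 N).filter
        (fun a => a ∈ Q A l L ∧ D ≤ (nb A l L a).card)).card : ℝ) ≤ Real.sqrt N / (2 * L) := by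
      rw [le_div_iff₀ (by positivity)]
      have h4 : (D : ℝ) = 4 * (L * l) * (2 * L) := by rw [hD]; push_cast; ring
      rw [h4] at h2
      have h5 : (0 : ℝ) < 4 * (L * l) := by positivity
      have h6 : (4 * (L * l) : ℝ) * ((((Icc 1 N).filter
        (fun a => a ∈ Q A l L ∧ D ≤ (nb A l L a).card)).card : ℝ) * (2 * L)) ≤
          4 * (L * l) * Real.sqrt N := by linarith
      exact le_of_mul_le_mul_left h6 h5
    -- the greedy step
    have h4 : (cnt S N : ℝ) ≤ (1 + D) * cnt B N := by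
      have h5 : elts S N ⊆ elts B N ∪ (elts B N).biUnion (fun a => nb A l L a) := by
        intro b hb
        simp only [mem_elts, mem_union, mem_biUnion] at hb ⊢
        by_cases hbB : b ∈ B
        · exact Or.inl ⟨hb.1, hbB⟩
        · right
          rw [hBmem] at hbB
          have h6 : ∃ a, a < b ∧ a ∈ B ∧ L ≤ rep A (a + b) := by
            by_contra hc
            apply hbB
            refine ⟨hb.2, fun a hab ha hL' => hc ⟨a, hab, ha, hL'⟩⟩
          obtain ⟨a, hab, haB, hLa⟩ := h6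
          have haQ := (hBS haB).1
          exact ⟨a, ⟨⟨haQ.2.1, by omega⟩, haB⟩, mem_nb haQ hb.2.1 hab hLa⟩
      have h6 := (Finset.card_le_card h5).trans (Finset.card_union_le _ _)
      have h7 : ((elts B N).biUnion (fun a => nb A l L a)).card ≤ cnt B N * D := by
        refine Finset.card_biUnion_le_card_mul _ _ _ fun a ha => ?_
        rw [mem_elts] at ha
        exact (hBS ha.2).2.le
      have h8 : cnt S N ≤ cnt B N + cnt B N * D := by
        refine h6.trans ?_
        exact Nat.add_le_add_left h7 _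
      have h9 : (cnt S N : ℝ) ≤ cnt B N + cnt B N * D := by exact_mod_cast h8
      linarith
    have h5 := (h N).1
    have h6 : (0 : ℝ) ≤ cnt B N := by positivity
    have h7 : (L : ℝ) * (Real.sqrt N / (2 * L)) = Real.sqrt N / 2 := by
      field_simp
    have h8 : Real.sqrt N ≤ L * (1 + (1 + D) * cnt B N) + Real.sqrt N / 2 := by
      calc Real.sqrt N ≤ L * (1 + quiet A l L N : ℝ) := h5
        _ ≤ L * (1 + ((1 + D) * cnt B N + Real.sqrt N / (2 * L))) := by
            gcongr
            linarith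
        _ = L * (1 + (1 + D) * cnt B N) + L * (Real.sqrt N / (2 * L)) := by ring
        _ = _ := by rw [h7]
    have h9 : Real.sqrt N ≤ 2 * L * (1 + (1 + D) * cnt B N) := by linarith
    push_cast
    refine h9.trans ?_
    have h10 : (1 : ℝ) + (1 + D) * cnt B N ≤ (1 + D) * (1 + cnt B N) := by nlinarith
    calc 2 * (L : ℝ) * (1 + (1 + D) * cnt B N) ≤ 2 * L * ((1 + D) * (1 + cnt B N)) := by gcongr
      _ = _ := by ring
  · -- the representation function
    by_cases hc : ∃ a b, a ∈ B ∧ b ∈ B ∧ a < b ∧ a + b = n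
    · obtain ⟨a, b, ha, hb, hab, hn⟩ := hc
      have h1 := ((hBmem b).1 hb).2 a hab ha
      rw [hn] at h1
      have h2 := rep_mono hBA n
      omega
    · refine le_trans ?_ hL
      have h1 : {p : ℕ × ℕ | p.1 ∈ B ∧ p.2 ∈ B ∧ p.1 + p.2 = n} ⊆ {(n / 2, n / 2)} := by
        rintro ⟨a, b⟩ ⟨ha, hb, hab⟩
        simp only at ha hb hab
        simp only [Set.mem_singleton_iff, Prod.mk.injEq]
        rcases lt_trichotomy a b with h2 | h2 | h2
        · exact (hc ⟨a, b, ha, hb, h2, hab⟩).elim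
        · omega
        · exact (hc ⟨b, a, hb, ha, h2, by omega⟩).elim
      have h2 := Set.ncard_le_ncard h1 (Set.finite_singleton _)
      rw [Set.ncard_singleton] at h2
      exact h2

/-! ### The growth condition -/

lemma cnt_of_quad {A : Set ℕ} (h : Quad A) :
    ∃ C : ℕ, ∀ N : ℕ, Real.sqrt N ≤ C * (1 + cnt A N : ℝ) := by
  obtain ⟨hinf, C, hC⟩ := h
  refine ⟨2 * (C + 1), fun N => ?_⟩
  set m := Nat.sqrt (N / (C + 1)) with hm
  have h1 : (C + 1) * m ^ 2 ≤ N := by
    have h2 : m ^ 2 ≤ N / (C + 1) := Nat.sqrt_le' _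
    calc (C + 1) * m ^ 2 ≤ (C + 1) * (N / (C + 1)) := Nat.mul_le_mul_left _ h2
      _ ≤ N := Nat.mul_div_le _ _
  have h3 : N < (C + 1) * (m + 1) ^ 2 := by
    have h4 : N / (C + 1) < (m + 1) ^ 2 := Nat.lt_succ_sqrt' _
    rw [Nat.div_lt_iff_lt_mul (by omega)] at h4
    linarith
  have h5 : m ≤ cnt A N + 1 := by
    rcases Nat.eq_zero_or_pos m with h6 | h6
    · omega
    · have hsm := Nat.nth_strictMono (p := (· ∈ A)) hinf
      have h7 : (Icc 1 (m - 1)).image (Nat.nth (· ∈ A)) ⊆ elts A N := by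
        intro x hx
        rw [Finset.mem_image] at hx
        obtain ⟨i, hi, rfl⟩ := hx
        rw [Finset.mem_Icc] at hi
        rw [mem_elts]
        have h8 : Nat.nth (· ∈ A) 0 < Nat.nth (· ∈ A) i := hsm (by omega)
        have h9 : Nat.nth (· ∈ A) i ≤ Nat.nth (· ∈ A) (m - 1) := hsm.monotone (by omega)
        have h10 := hC m h6
        have h11 : C * m ^ 2 ≤ (C + 1) * m ^ 2 := Nat.mul_le_mul_right _ (by omega)
        exact ⟨⟨by omega, by omega⟩, Nat.nth_mem_of_infinite hinf i⟩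
      have h8 := Finset.card_le_card h7
      rw [Finset.card_image_of_injective _ hsm.injective, Nat.card_Icc] at h8
      unfold cnt
      omega
  have h6 : Real.sqrt N ≤ (C + 1 : ℝ) * (m + 1) := by
    rw [Real.sqrt_le_left (by positivity)]
    have h7 : (N : ℝ) ≤ (C + 1) * (m + 1) ^ 2 := by exact_mod_cast h3.le
    have h8 : (1 : ℝ) ≤ C + 1 := by
      have : (0 : ℝ) ≤ C := by positivity
      linarith
    calc (N : ℝ) ≤ (C + 1) * (m + 1) ^ 2 := h7
      _ ≤ ((C + 1) * (C + 1)) * (m + 1) ^ 2 := by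
          gcongr
          nlinarith
      _ = _ := by ring
  have h7 : (m : ℝ) ≤ cnt A N + 1 := by exact_mod_cast h5
  push_cast
  have h8 : (0 : ℝ) ≤ cnt A N := by positivity
  calc Real.sqrt N ≤ (C + 1 : ℝ) * (m + 1) := h6
    _ ≤ (C + 1) * (2 * (1 + cnt A N)) := by
        gcongr
        linarith
    _ = _ := by ring

lemma quad_of_cnt {B : Set ℕ} (h : ∃ C : ℕ, ∀ N : ℕ, Real.sqrt N ≤ C * (1 + cnt B N : ℝ)) :
    Quad B := by
  obtain ⟨C', hC'⟩ := h
  obtain ⟨C, hC1, hC⟩ : ∃ C : ℕ, 1 ≤ C ∧ ∀ N : ℕ, Real.sqrt N ≤ C * (1 + cnt B N : ℝ) := by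
    refine ⟨C' + 1, by omega, fun N => (hC' N).trans ?_⟩
    push_cast
    have : (0 : ℝ) ≤ 1 + cnt B N := by positivity
    nlinarith
  have hCr : (1 : ℝ) ≤ C := by exact_mod_cast hC1
  have key : ∀ n : ℕ, n ≤ cnt B ((C * (n + 1)) ^ 2) := by
    intro n
    have h1 := hC ((C * (n + 1)) ^ 2)
    have h2 : Real.sqrt (((C * (n + 1)) ^ 2 : ℕ) : ℝ) = C * (n + 1) := by
      push_cast
      rw [Real.sqrt_sq (by positivity)]
    rw [h2] at h1
    have h3 : (n + 1 : ℝ) ≤ 1 + cnt B ((C * (n + 1)) ^ 2) :=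
      le_of_mul_le_mul_left h1 (by linarith)
    have h4 : (n : ℝ) ≤ cnt B ((C * (n + 1)) ^ 2) := by linarith
    exact_mod_cast h4
  constructor
  · intro hfin
    have h1 := key (hfin.toFinset.card + 1)
    have h2 : elts B ((C * (hfin.toFinset.card + 1 + 1)) ^ 2) ⊆ hfin.toFinset := by
      intro x hx
      rw [mem_elts] at hx
      rw [Set.Finite.mem_toFinset]
      exact hx.2
    have h3 := Finset.card_le_card h2
    unfold cnt at h1
    omega
  · refine ⟨4 * C ^ 2, fun n hn => ?_⟩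
    have h1 := key n
    set N := (C * (n + 1)) ^ 2 with hN
    have h2 : cnt B N ≤ Nat.count (· ∈ B) (N + 1) := by
      rw [Nat.count_eq_card_filter_range]
      refine Finset.card_le_card fun x hx => ?_
      rw [mem_elts] at hx
      rw [Finset.mem_filter, Finset.mem_range]
      exact ⟨by omega, hx.2⟩
    have h3 : Nat.nth (· ∈ B) (n - 1) < N + 1 := Nat.nth_lt_of_lt_count (by omega)
    have h4 : N ≤ 4 * C ^ 2 * n ^ 2 := by
      have h5 : n + 1 ≤ 2 * n := by omega
      calc N = (C * (n + 1)) ^ 2 := hN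
        _ ≤ (C * (2 * n)) ^ 2 := Nat.pow_le_pow_left (Nat.mul_le_mul_left _ h5) 2
        _ = _ := by ring
    omega

/-! ### Monotonicity -/

lemma quiet_finite (A : Set ℕ) (l K N : ℕ) :
    {b : ℕ | b ∈ A ∧ 1 ≤ b ∧ b ≤ N ∧ ∀ a ∈ A, l * a ≤ b → rep A (a + b) < K}.Finite :=
  Set.Finite.subset (Set.finite_Iic N) fun _ hb => hb.2.2.1

lemma quiet_mono {A : Set ℕ} {l l' K K' N : ℕ} (hl : l ≤ l') (hK : K ≤ K') :
    quiet A l K N ≤ quiet A l' K' N := by
  refine Set.ncard_le_ncard ?_ (quiet_finite A l' K' N)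
  rintro b ⟨h1, h2, h3, h4⟩
  refine ⟨h1, h2, h3, fun a ha hab => ?_⟩
  exact (h4 a ha ((Nat.mul_le_mul_right a hl).trans hab)).trans_le hK

lemma popular_anti {A : Set ℕ} {l K K' N : ℕ} (hK : K ≤ K') :
    popular A l K' N ≤ popular A l K N := by
  refine Set.ncard_le_ncard ?_ (popular_finite A l K N)
  rintro ⟨a, b⟩ ⟨h1, h2, h3, h4, h5, h6⟩
  exact ⟨h1, h2, h3, h4, h5, hK.trans h6⟩

lemma popular_eq_zero {A : Set ℕ} {l K N : ℕ} (h : ∀ n ≤ 2 * N, rep A n < K) :
    popular A l K N = 0 := by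
  rw [popular, Set.ncard_eq_zero (popular_finite A l K N)]
  ext ⟨a, b⟩
  constructor
  · rintro ⟨h1, h2, h3, h4, h5, h6⟩
    simp only at h1 h2 h3 h4 h5 h6
    have := h (a + b) (by omega)
    omega
  · intro h1
    exact h1.elim

/-! ### Stars of popular pairs -/

/-- The popular partners of `a` in `[x, y)`. -/
noncomputable def W (A : Set ℕ) (K a x y : ℕ) : Finset ℕ :=
  (Ico x y).filter (fun b => b ∈ A ∧ a < b ∧ K < rep A (a + b))

lemma mem_W {A : Set ℕ} {K a x y b : ℕ} :
    b ∈ W A K a x y ↔ (x ≤ b ∧ b < y) ∧ b ∈ A ∧ a < b ∧ K < rep A (a + b) := by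
  simp only [W, mem_filter, mem_Ico]

lemma partners_eq (A : Set ℕ) (K a N : ℕ) : partners A K a N = (W A K a N (2 * N)).card := by
  rw [partners, ← Set.ncard_coe_finset]
  congr 1
  ext b
  rw [Finset.mem_coe, mem_W]
  simp only [Set.mem_ofPred_eq]
  tauto

lemma W_card {A : Set ℕ} {K L a : ℕ} (h : ∀ N, (W A K a N (2 * N)).card ≤ L) (x j : ℕ) :
    (W A K a x (2 ^ j * x)).card ≤ j * L := by
  induction j with
  | zero =>
    have : W A K a x (2 ^ 0 * x) = ∅ := by
      ext b
      rw [mem_W]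
      simp only [Finset.notMem_empty, iff_false]
      intro hb
      omega
    rw [this]
    simp
  | succ j ih =>
    have h1 : W A K a x (2 ^ (j + 1) * x) ⊆
        W A K a x (2 ^ j * x) ∪ W A K a (2 ^ j * x) (2 * (2 ^ j * x)) := by
      intro b hb
      rw [Finset.mem_union, mem_W, mem_W]
      rw [mem_W] at hb
      have h2 : 2 ^ (j + 1) * x = 2 * (2 ^ j * x) := by ring
      rcases lt_or_ge b (2 ^ j * x) with h3 | h3
      · exact Or.inl ⟨⟨hb.1.1, h3⟩, hb.2⟩
      · exact Or.inr ⟨⟨h3, by omega⟩, hb.2⟩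
    calc (W A K a x (2 ^ (j + 1) * x)).card ≤ _ := Finset.card_le_card h1
      _ ≤ _ := Finset.card_union_le _ _
      _ ≤ j * L + L := Nat.add_le_add ih (h _)
      _ = (j + 1) * L := by ring

lemma pow_four_bound (m : ℕ) : m ^ 4 ≤ 2048 * 2 ^ m := by
  induction m with
  | zero => norm_num
  | succ m ih =>
    rcases lt_or_ge m 6 with h | h
    · interval_cases m <;> norm_num
    · obtain ⟨k, rfl⟩ := Nat.exists_eq_add_of_le h
      have h1 : (6 + k + 1) ^ 4 ≤ 2 * (6 + k) ^ 4 := by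
        have h2 : 2 * (6 + k) ^ 4 =
          (6 + k + 1) ^ 4 + (k ^ 4 + 20 * k ^ 3 + 138 * k ^ 2 + 356 * k + 191) := by ring
        omega
      calc (6 + k + 1) ^ 4 ≤ 2 * (6 + k) ^ 4 := h1
        _ ≤ 2 * (2048 * 2 ^ (6 + k)) := Nat.mul_le_mul_left _ ih
        _ = _ := by ring

lemma size_half {N : ℕ} (hN : 0 < N) : Nat.size (N / 2) + 1 ≤ Nat.size N := by
  rcases Nat.eq_zero_or_pos (Nat.size (N / 2)) with h | h
  · rw [h]
    have : 0 < Nat.size N := by
      rw [Nat.lt_size, pow_zero]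
      exact hN
    omega
  · have h1 : Nat.size (N / 2) - 1 < Nat.size (N / 2) := by omega
    rw [Nat.lt_size] at h1
    have h2 : 2 ^ Nat.size (N / 2) ≤ N := by
      obtain ⟨m, hm⟩ : ∃ m, Nat.size (N / 2) = m + 1 := ⟨Nat.size (N / 2) - 1, by omega⟩
      rw [hm] at h1 ⊢
      simp only [Nat.add_sub_cancel] at h1
      rw [pow_succ]
      omega
    exact Nat.lt_size.2 h2

lemma size_le (N : ℕ) : (Nat.size N : ℝ) ≤ 8 * Real.sqrt (Real.sqrt N) := by
  rcases Nat.eq_zero_or_pos N with h | h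
  · subst h
    simp
  · have h0 : 0 < Nat.size N := by
      rw [Nat.lt_size, pow_zero]
      exact h
    have h1 : 2 ^ (Nat.size N - 1) ≤ N := by
      rw [← Nat.lt_size]
      omega
    have h2 : Nat.size N ^ 4 ≤ 4096 * N := by
      obtain ⟨m, hm⟩ : ∃ m, Nat.size N = m + 1 := ⟨Nat.size N - 1, by omega⟩
      have h3 := pow_four_bound (Nat.size N)
      rw [hm] at h1 h3 ⊢
      simp only [Nat.add_sub_cancel] at h1
      calc (m + 1) ^ 4 ≤ 2048 * 2 ^ (m + 1) := h3
        _ = 4096 * 2 ^ m := by ring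
        _ ≤ 4096 * N := Nat.mul_le_mul_left _ h1
    have h3 : (Nat.size N : ℝ) ^ 4 ≤ (8 * Real.sqrt (Real.sqrt N)) ^ 4 := by
      have h4 : (8 * Real.sqrt (Real.sqrt N)) ^ 4 = 4096 * N := by
        have h5 : Real.sqrt (Real.sqrt N) ^ 4 = N := by
          calc Real.sqrt (Real.sqrt N) ^ 4 = (Real.sqrt (Real.sqrt N) ^ 2) ^ 2 := by ring
            _ = Real.sqrt N ^ 2 := by rw [Real.sq_sqrt (by positivity)]
            _ = N := Real.sq_sqrt (by positivity)
        rw [mul_pow, h5]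
        norm_num
      rw [h4]
      exact_mod_cast h2
    exact le_of_pow_le_pow_left₀ (by norm_num) (by positivity) h3

lemma sqrt_half (N : ℕ) : Real.sqrt ((N / 2 : ℕ) : ℝ) ≤ 3 / 4 * Real.sqrt N := by
  rw [Real.sqrt_le_left (by positivity), mul_pow, Real.sq_sqrt (by positivity)]
  have h6 : ((N / 2 : ℕ) : ℝ) ≤ N / 2 := Nat.cast_div_le
  have h7 : (0 : ℝ) ≤ N := by positivity
  linarith

/-- If no element has many popular partners in a dyadic interval then `|A ∩ [1, N]|` is at most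
a constant times `√N`. -/
lemma cnt_upper {A : Set ℕ} {K L : ℕ} (h : ∀ a ∈ A, ∀ N, (W A K a N (2 * N)).card ≤ L) (N : ℕ) :
    (cnt A N : ℝ) ≤ (6 * K + 32 * L + 2 : ℝ) * Real.sqrt N := by
  rcases Nat.eq_zero_or_pos N with h0 | h0
  · subst h0
    have : cnt A 0 = 0 := by
      rw [cnt, Finset.card_eq_zero]
      ext x
      rw [mem_elts]
      simp only [Finset.notMem_empty, iff_false]
      intro h1
      omega
    rw [this]
    simp
  · set X := elts A N with hX
    set x := cnt A N with hx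
    set j := Nat.size N with hj
    have hXc : X.card = x := rfl
    -- the pairs with an unpopular sum
    have h1 : ((X ×ˢ X).filter (fun p => rep A (p.1 + p.2) ≤ K)).card ≤ (2 * N + 1) * K := by
      have h2 : ((X ×ˢ X).filter (fun p => rep A (p.1 + p.2) ≤ K)).card =
          ∑ n ∈ Finset.range (2 * N + 1),
            (((X ×ˢ X).filter (fun p => rep A (p.1 + p.2) ≤ K)).filter
              (fun p => p.1 + p.2 = n)).card := by
        refine Finset.card_eq_sum_card_fiberwise ?_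
        rintro ⟨a, b⟩ hab
        simp only [Finset.mem_coe, mem_filter, mem_product, hX, mem_elts] at hab
        simp only [Finset.coe_range, Set.mem_Iio]
        omega
      rw [h2]
      calc ∑ n ∈ Finset.range (2 * N + 1), (((X ×ˢ X).filter (fun p => rep A (p.1 + p.2) ≤ K)).filter
              (fun p => p.1 + p.2 = n)).card ≤ ∑ n ∈ Finset.range (2 * N + 1), K := by
            refine Finset.sum_le_sum fun n _ => ?_
            rcases le_or_gt (rep A n) K with h3 | h3
            · refine le_trans ?_ h3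
              rw [rep, ← Set.ncard_coe_finset]
              refine Set.ncard_le_ncard ?_ (rep_finite A n)
              rintro ⟨a, b⟩ hab
              simp only [Finset.mem_coe, mem_filter, mem_product, hX, mem_elts] at hab
              exact ⟨hab.1.1.1.2, hab.1.1.2.2, hab.2⟩
            · rw [Finset.card_eq_zero.2]
              · exact Nat.zero_le _
              · ext ⟨a, b⟩
                simp only [mem_filter, Finset.notMem_empty, iff_false]
                rintro ⟨⟨_, h4⟩, h5⟩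
                rw [h5] at h4
                omega
        _ = (2 * N + 1) * K := by
            rw [Finset.sum_const, Finset.card_range, smul_eq_mul]
    -- the pairs with a popular sum
    have h2 : ((X ×ˢ X).filter (fun p => ¬ rep A (p.1 + p.2) ≤ K)).card ≤
        x * (2 * (j * L) + 1) := by
      have h3 : (X ×ˢ X).filter (fun p => ¬ rep A (p.1 + p.2) ≤ K) ⊆
          X.biUnion (fun a => ((W A K a 1 (2 ^ j * 1)).image (fun b => (a, b)) ∪
            (W A K a 1 (2 ^ j * 1)).image (fun b => (b, a))) ∪ {(a, a)}) := by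
        rintro ⟨a, b⟩ hab
        simp only [mem_filter, mem_product, not_le] at hab
        obtain ⟨⟨ha, hb⟩, hK⟩ := hab
        have ha' := ha
        have hb' := hb
        rw [hX, mem_elts] at ha' hb'
        have hN : N < 2 ^ j := Nat.size_le.1 le_rfl
        simp only [mem_biUnion, mem_union, mem_image, Finset.mem_singleton, Prod.mk.injEq]
        rcases lt_trichotomy a b with h4 | h4 | h4
        · refine ⟨a, ha, Or.inl (Or.inl ⟨b, ?_, rfl, rfl⟩)⟩
          rw [mem_W]
          exact ⟨⟨hb'.1.1, by omega⟩, hb'.2, h4, hK⟩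
        · exact ⟨a, ha, Or.inr ⟨rfl, h4.symm⟩⟩
        · refine ⟨b, hb, Or.inl (Or.inr ⟨a, ?_, rfl, rfl⟩)⟩
          rw [mem_W]
          rw [add_comm] at hK
          exact ⟨⟨ha'.1.1, by omega⟩, ha'.2, h4, hK⟩
      refine (Finset.card_le_card h3).trans ?_
      refine (Finset.card_biUnion_le_card_mul _ _ (2 * (j * L) + 1) fun a ha => ?_)
      rw [hX, mem_elts] at ha
      have h4 := W_card (h a ha.2) 1 j
      have h5 := Finset.card_union_le ((W A K a 1 (2 ^ j * 1)).image (fun b => (a, b)) ∪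
            (W A K a 1 (2 ^ j * 1)).image (fun b => (b, a))) {(a, a)}
      have h6 := Finset.card_union_le ((W A K a 1 (2 ^ j * 1)).image (fun b => (a, b)))
            ((W A K a 1 (2 ^ j * 1)).image (fun b => (b, a)))
      have h7 := Finset.card_image_le (s := W A K a 1 (2 ^ j * 1)) (f := fun b => (a, b))
      have h8 := Finset.card_image_le (s := W A K a 1 (2 ^ j * 1)) (f := fun b => (b, a))
      rw [Finset.card_singleton] at h5
      omega
    have h3 : x * x ≤ (2 * N + 1) * K + x * (2 * (j * L) + 1) := by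
      have h4 := Finset.card_filter_add_card_filter_not (s := X ×ˢ X)
        (fun p => rep A (p.1 + p.2) ≤ K)
      rw [Finset.card_product, hXc] at h4
      omega
    have h4 : (x : ℝ) * x ≤ (2 * N + 1) * K + x * (2 * (j * L) + 1) := by exact_mod_cast h3
    have h5 : (j : ℝ) ≤ 8 * Real.sqrt N := by
      refine (size_le N).trans ?_
      have h6 : (1 : ℝ) ≤ N := by exact_mod_cast h0
      have h7 : (1 : ℝ) ≤ Real.sqrt N := by
        rw [Real.one_le_sqrt]
        exact h6
      have h8 : Real.sqrt (Real.sqrt N) ≤ Real.sqrt N := by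
        rw [Real.sqrt_le_left (by positivity)]
        nlinarith
      linarith
    have h6 : (1 : ℝ) ≤ N := by exact_mod_cast h0
    have h7 : (1 : ℝ) ≤ Real.sqrt N := by
      rw [Real.one_le_sqrt]
      exact h6
    have h8 : Real.sqrt N ^ 2 = N := Real.sq_sqrt (by positivity)
    by_contra hc
    push Not at hc
    have hK0 : (0 : ℝ) ≤ K := by positivity
    have hL0 : (0 : ℝ) ≤ L := by positivity
    have hx0 : (0 : ℝ) ≤ x := by positivity
    -- `x > (6K + 32L + 2) √N`
    have h9 : (2 * (j * L) + 1 : ℝ) ≤ (16 * L + 1) * Real.sqrt N := by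
      have : (j : ℝ) * L ≤ 8 * Real.sqrt N * L := by gcongr
      nlinarith
    have h10 : ((2 * N + 1) * K : ℝ) ≤ 3 * K * Real.sqrt N ^ 2 := by
      rw [h8]
      nlinarith
    have h11 : (x : ℝ) * x ≤ 3 * K * Real.sqrt N ^ 2 + x * ((16 * L + 1) * Real.sqrt N) := by
      have : (x : ℝ) * (2 * (j * L) + 1) ≤ x * ((16 * L + 1) * Real.sqrt N) := by gcongr
      linarith
    have h12 : (6 * K + 32 * L + 2 : ℝ) * Real.sqrt N * x ≤ x * x := by
      gcongr
    have h13 : (0 : ℝ) ≤ 6 * K * Real.sqrt N := by positivity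
    have h14 : 6 * (K : ℝ) * Real.sqrt N * Real.sqrt N ≤ 6 * K * Real.sqrt N * x := by
      gcongr
      nlinarith
    have hxpos : 0 < (x : ℝ) := by
      have : (0 : ℝ) < (6 * K + 32 * L + 2 : ℝ) * Real.sqrt N := by positivity
      linarith
    nlinarith [mul_pos hxpos (show (0 : ℝ) < Real.sqrt N by linarith)]

/-- The elements of `A` in `[1, N]` which are not quiet. -/
noncomputable def NQ (A : Set ℕ) (l L N : ℕ) : Finset ℕ := (elts A N).filter (fun b => b ∉ Q A l L)

lemma cnt_le_quiet (A : Set ℕ) (l L N : ℕ) : cnt A N ≤ cnt (Q A l L) N + (NQ A l L N).card := by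
  have h1 : elts A N ⊆ elts (Q A l L) N ∪ NQ A l L N := by
    intro b hb
    rw [Finset.mem_union, NQ, mem_filter]
    by_cases hc : b ∈ Q A l L
    · left
      rw [mem_elts] at hb ⊢
      exact ⟨hb.1, hc⟩
    · exact Or.inr ⟨hb, hc⟩
  exact (Finset.card_le_card h1).trans (Finset.card_union_le _ _)

lemma NQ_step {A : Set ℕ} {K L : ℕ} (h : ∀ a ∈ A, ∀ N, (W A K a N (2 * N)).card ≤ L)
    {l L' : ℕ} (hl : 2 ≤ l) (hL' : K < L') (N : ℕ) :
    (NQ A l L' N).card ≤ (NQ A l L' (N / 2)).card + (1 + cnt A (N / l)) * L := by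
  set Y := (insert 0 (elts A (N / l))).filter (fun a => a ∈ A) with hY
  have hYc : Y.card ≤ 1 + cnt A (N / l) := by
    refine (Finset.card_filter_le _ _).trans ((Finset.card_insert_le _ _).trans ?_)
    rw [cnt]
    omega
  have h1 : NQ A l L' N ⊆ NQ A l L' (N / 2) ∪
      Y.biUnion (fun a => W A K a (N / 2 + 1) (2 * (N / 2 + 1))) := by
    intro b hb
    rw [NQ, mem_filter, mem_elts] at hb
    obtain ⟨⟨⟨hb1, hbN⟩, hbA⟩, hbQ⟩ := hb
    rw [Finset.mem_union]
    rcases le_or_gt b (N / 2) with h2 | h2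
    · left
      rw [NQ, mem_filter, mem_elts]
      exact ⟨⟨⟨hb1, h2⟩, hbA⟩, hbQ⟩
    · right
      have h3 : ∃ a ∈ A, l * a ≤ b ∧ L' ≤ rep A (a + b) := by
        by_contra hc
        apply hbQ
        refine ⟨hbA, hb1, fun a ha hab => ?_⟩
        by_contra h4
        exact hc ⟨a, ha, hab, by omega⟩
      obtain ⟨a, ha, hab, hL⟩ := h3
      rw [mem_biUnion]
      refine ⟨a, ?_, ?_⟩
      · rw [hY, mem_filter, Finset.mem_insert, mem_elts]
        refine ⟨?_, ha⟩
        rcases Nat.eq_zero_or_pos a with h4 | h4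
        · exact Or.inl h4
        · refine Or.inr ⟨⟨h4, ?_⟩, ha⟩
          rw [Nat.le_div_iff_mul_le (by omega), mul_comm]
          omega
      · rw [mem_W]
        refine ⟨⟨by omega, by omega⟩, hbA, ?_, by omega⟩
        rcases Nat.eq_zero_or_pos a with h4 | h4
        · omega
        · have h5 : 2 * a ≤ l * a := Nat.mul_le_mul_right a hl
          omega
  calc (NQ A l L' N).card ≤ _ := Finset.card_le_card h1
    _ ≤ _ := Finset.card_union_le _ _
    _ ≤ (NQ A l L' (N / 2)).card + Y.card * L := by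
        refine Nat.add_le_add_left ?_ _
        refine Finset.card_biUnion_le_card_mul _ _ _ fun a ha => ?_
        rw [hY, mem_filter] at ha
        exact h a ha.2 _
    _ ≤ _ := Nat.add_le_add_left (Nat.mul_le_mul_right L hYc) _

lemma NQ_bound {A : Set ℕ} {K L : ℕ} (h : ∀ a ∈ A, ∀ N, (W A K a N (2 * N)).card ≤ L)
    {U : ℝ} (hU0 : 0 ≤ U) (hU : ∀ N, (cnt A N : ℝ) ≤ U * Real.sqrt N)
    {s L' : ℕ} (hs : 2 ≤ s) (hL' : K < L') (N : ℕ) :
    ((NQ A (s ^ 2) L' N).card : ℝ) ≤ L * Nat.size N + 4 * (L * U) * (Real.sqrt N / s) := by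
  induction N using Nat.strong_induction_on with
  | _ N ih =>
    rcases Nat.eq_zero_or_pos N with h0 | h0
    · subst h0
      have : NQ A (s ^ 2) L' 0 = ∅ := by
        ext b
        rw [NQ, mem_filter, mem_elts]
        simp only [Finset.notMem_empty, iff_false]
        intro h1
        omega
      rw [this]
      simp
    · have hs2 : 2 ≤ s ^ 2 := by nlinarith
      have hsr : (0 : ℝ) < s := by
        have : 0 < s := by omega
        exact_mod_cast this
      have h1 := ih (N / 2) (Nat.div_lt_self h0 (by norm_num))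
      have h2 := NQ_step h hs2 hL' N
      have h3 : ((NQ A (s ^ 2) L' N).card : ℝ) ≤
          (NQ A (s ^ 2) L' (N / 2)).card + (1 + cnt A (N / s ^ 2)) * L := by exact_mod_cast h2
      have h4 : (cnt A (N / s ^ 2) : ℝ) ≤ U * (Real.sqrt N / s) := by
        refine (hU _).trans ?_
        refine mul_le_mul_of_nonneg_left ?_ hU0
        rw [Real.sqrt_le_left (by positivity), div_pow, Real.sq_sqrt (by positivity)]
        have h5 : ((N / s ^ 2 : ℕ) : ℝ) ≤ N / (s ^ 2 : ℕ) := Nat.cast_div_le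
        simpa using h5
      have h5 := sqrt_half N
      have h6 : (Nat.size (N / 2) : ℝ) + 1 ≤ Nat.size N := by exact_mod_cast size_half h0
      have hL0 : (0 : ℝ) ≤ L := by positivity
      have h7 : Real.sqrt ((N / 2 : ℕ) : ℝ) / s ≤ 3 / 4 * (Real.sqrt N / s) := by
        rw [div_le_iff₀ hsr]
        calc Real.sqrt ((N / 2 : ℕ) : ℝ) ≤ 3 / 4 * Real.sqrt N := h5
          _ = 3 / 4 * (Real.sqrt N / s) * s := by field_simp
      have h8 : (0 : ℝ) ≤ L * U := by positivity
      calc ((NQ A (s ^ 2) L' N).card : ℝ)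
          ≤ (NQ A (s ^ 2) L' (N / 2)).card + (1 + cnt A (N / s ^ 2)) * L := h3
        _ ≤ (L * Nat.size (N / 2) + 4 * (L * U) * (Real.sqrt ((N / 2 : ℕ) : ℝ) / s)) +
            (1 + U * (Real.sqrt N / s)) * L := by gcongr
        _ ≤ (L * Nat.size (N / 2) + 4 * (L * U) * (3 / 4 * (Real.sqrt N / s))) +
            (1 + U * (Real.sqrt N / s)) * L := by gcongr
        _ = L * (Nat.size (N / 2) + 1) + 4 * (L * U) * (Real.sqrt N / s) := by ring
        _ ≤ _ := by gcongr

lemma popular_bound {A : Set ℕ} {K L : ℕ} (h : ∀ a ∈ A, ∀ N, (W A K a N (2 * N)).card ≤ L)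
    {l L' : ℕ} (hL' : K < L') (N : ℕ) :
    popular A (2 * l) L' N ≤ cnt A N * (2 * l * L) := by
  have h1 : {p : ℕ × ℕ | p.1 ∈ A ∧ p.2 ∈ A ∧ p.1 < p.2 ∧ p.2 ≤ N ∧ N ≤ 2 * l * p.1 ∧
      L' ≤ rep A (p.1 + p.2)} ⊆
      ((elts A N).biUnion (fun a => (W A K a a (2 ^ (2 * l) * a)).image (fun b => (a, b))) :
        Finset (ℕ × ℕ)) := by
    rintro ⟨a, b⟩ ⟨ha, hb, hab, hbN, hN, hL⟩
    simp only at ha hb hab hbN hN hL
    have ha0 : 1 ≤ a := by
      rcases Nat.eq_zero_or_pos a with h2 | h2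
      · rw [h2] at hN
        omega
      · exact h2
    rw [Finset.mem_coe, mem_biUnion]
    refine ⟨a, mem_elts.2 ⟨⟨ha0, by omega⟩, ha⟩, ?_⟩
    rw [mem_image]
    refine ⟨b, ?_, rfl⟩
    rw [mem_W]
    refine ⟨⟨hab.le, ?_⟩, hb, hab, by omega⟩
    have h2 : 2 * l < 2 ^ (2 * l) := Nat.lt_two_pow_self
    calc b ≤ N := hbN
      _ ≤ 2 * l * a := hN
      _ < 2 ^ (2 * l) * a := Nat.mul_lt_mul_of_pos_right h2 ha0
  have h2 := Set.ncard_le_ncard h1 (Finset.finite_toSet _)
  rw [Set.ncard_coe_finset] at h2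
  refine h2.trans (Finset.card_biUnion_le_card_mul _ _ _ fun a ha => ?_)
  rw [mem_elts] at ha
  exact Finset.card_image_le.trans (W_card (h a ha.2) a (2 * l))

/-- Boundedly many popular partners in dyadic intervals: the pairs can be removed. -/
lemma good_of_star {A : Set ℕ} (hA : Quad A) {K L : ℕ} (h : ∀ a ∈ A, ∀ N, partners A K a N ≤ L) :
    ∃ l L' : ℕ, 1 ≤ l ∧ 1 ≤ L' ∧ ∀ N, Good l L' N A := by
  have hW : ∀ a ∈ A, ∀ N, (W A K a N (2 * N)).card ≤ L := by
    intro a ha N
    rw [← partners_eq]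
    exact h a ha N
  obtain ⟨C', hC'⟩ := cnt_of_quad hA
  obtain ⟨C, hC1, hC⟩ : ∃ C : ℕ, 1 ≤ C ∧ ∀ N : ℕ, Real.sqrt N ≤ C * (1 + cnt A N : ℝ) := by
    refine ⟨C' + 1, by omega, fun N => (hC' N).trans ?_⟩
    push_cast
    have : (0 : ℝ) ≤ 1 + cnt A N := by positivity
    nlinarith
  have hCr : (1 : ℝ) ≤ C := by exact_mod_cast hC1
  set U : ℕ := 6 * K + 32 * L + 2 with hU
  have hUb : ∀ N, (cnt A N : ℝ) ≤ (U : ℝ) * Real.sqrt N := by
    intro N
    have := cnt_upper hW N
    rw [hU]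
    push_cast
    exact this
  set s : ℕ := 16 * L * U * C + 2 with hs
  set L' : ℕ := (K + 1) + 2 * s ^ 2 * L * U + 2 * C * (1 + 64 * L ^ 2 * C) with hL'
  have hs2 : 2 ≤ s := by omega
  have hsr : (0 : ℝ) < s := by
    have : 0 < s := by omega
    exact_mod_cast this
  have hKL : K < L' := by omega
  refine ⟨s ^ 2, L', ?_, by omega, fun N => ⟨?_, ?_⟩⟩
  · nlinarith
  · have h1 := hC N
    have h2 : (cnt A N : ℝ) ≤ cnt (Q A (s ^ 2) L') N + (NQ A (s ^ 2) L' N).card := by
      exact_mod_cast cnt_le_quiet A (s ^ 2) L' N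
    have h3 := NQ_bound hW (U := U) (by positivity) hUb hs2 hKL N
    have h4 : (4 : ℝ) * (L * U) * (Real.sqrt N / s) ≤ Real.sqrt N / (4 * C) := by
      have h5 : (16 : ℝ) * L * U * C ≤ s := by
        rw [hs]
        push_cast
        linarith
      rw [le_div_iff₀ (by positivity)]
      have h6 : (4 : ℝ) * (L * U) * (Real.sqrt N / s) * (4 * C) =
          (16 * L * U * C) * (Real.sqrt N / s) := by ring
      rw [h6]
      calc (16 * L * U * C : ℝ) * (Real.sqrt N / s) ≤ s * (Real.sqrt N / s) := by gcongr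
        _ = Real.sqrt N := by field_simp
    have h5 : (L : ℝ) * Nat.size N ≤ Real.sqrt N / (4 * C) + 64 * L ^ 2 * C := by
      have h6 := size_le N
      set t := Real.sqrt (Real.sqrt N) with ht
      have h7 : t ^ 2 = Real.sqrt N := Real.sq_sqrt (by positivity)
      have hL0 : (0 : ℝ) ≤ L := by positivity
      have h8 : (L : ℝ) * Nat.size N ≤ 8 * L * t := by nlinarith
      refine h8.trans ?_
      rw [← h7]
      have h9 : t ^ 2 / (4 * C) + 64 * (L : ℝ) ^ 2 * C - 8 * L * t =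
          (t - 16 * L * C) ^ 2 / (4 * C) := by
        field_simp
        ring
      have h10 : (0 : ℝ) ≤ (t - 16 * L * C) ^ 2 / (4 * C) := by positivity
      linarith
    rw [quiet_eq]
    have hq0 : (0 : ℝ) ≤ cnt (Q A (s ^ 2) L') N := by positivity
    have h6 : Real.sqrt N ≤ C * (1 + (cnt (Q A (s ^ 2) L') N +
        (Real.sqrt N / (4 * C) + 64 * L ^ 2 * C + Real.sqrt N / (4 * C)))) := by
      refine h1.trans ?_
      refine mul_le_mul_of_nonneg_left ?_ (by positivity)
      linarith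
    have h7 : C * (1 + (cnt (Q A (s ^ 2) L') N +
        (Real.sqrt N / (4 * C) + 64 * L ^ 2 * C + Real.sqrt N / (4 * C)))) =
        C * (1 + 64 * L ^ 2 * C + cnt (Q A (s ^ 2) L') N) + Real.sqrt N / 2 := by
      field_simp
      ring
    rw [h7] at h6
    have h8 : Real.sqrt N ≤ 2 * C * (1 + 64 * L ^ 2 * C + cnt (Q A (s ^ 2) L') N) := by linarith
    have h9 : (1 + 64 * L ^ 2 * C + cnt (Q A (s ^ 2) L') N : ℝ) ≤
        (1 + 64 * L ^ 2 * C) * (1 + cnt (Q A (s ^ 2) L') N) := by
      have h10 : (0 : ℝ) ≤ 64 * L ^ 2 * C * cnt (Q A (s ^ 2) L') N := by positivity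
      nlinarith
    have h10 : (2 * C * (1 + 64 * L ^ 2 * C) : ℝ) ≤ L' := by
      rw [hL']
      push_cast
      have : (0 : ℝ) ≤ (K + 1) + 2 * s ^ 2 * L * U := by positivity
      linarith
    calc Real.sqrt N ≤ 2 * C * (1 + 64 * L ^ 2 * C + cnt (Q A (s ^ 2) L') N) := h8
      _ ≤ 2 * C * ((1 + 64 * L ^ 2 * C) * (1 + cnt (Q A (s ^ 2) L') N)) := by gcongr
      _ = (2 * C * (1 + 64 * L ^ 2 * C)) * (1 + cnt (Q A (s ^ 2) L') N) := by ring
      _ ≤ L' * (1 + cnt (Q A (s ^ 2) L') N) := by gcongr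
  · have h1 : (popular A (2 * s ^ 2) L' N : ℝ) ≤ cnt A N * (2 * s ^ 2 * L) := by
      exact_mod_cast popular_bound hW (l := s ^ 2) hKL N
    have h2 := hUb N
    have h3 : (2 * s ^ 2 * L * U : ℝ) ≤ L' := by
      rw [hL']
      push_cast
      have : (0 : ℝ) ≤ (K + 1) + 2 * C * (1 + 64 * L ^ 2 * C) := by positivity
      linarith
    calc (popular A (2 * s ^ 2) L' N : ℝ) ≤ cnt A N * (2 * s ^ 2 * L) := h1
      _ ≤ (U * Real.sqrt N) * (2 * s ^ 2 * L) := by gcongr
      _ = (2 * s ^ 2 * L * U) * Real.sqrt N := by ring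
      _ ≤ L' * Real.sqrt N := by gcongr

/-! ### The theorem -/

lemma exists_scale (hQ2 : ∀ A : Set ℕ, Quad A → ∀ K : ℕ, ∃ n, K < rep A n) (l L : ℕ)
    (hl : 1 ≤ l) (hL : 1 ≤ L) : ∃ M : ℕ, ∀ A : Set ℕ, ∃ N ≤ M, ¬ Good l L N A := by
  by_contra hc
  push Not at hc
  obtain ⟨A, hA⟩ := compactness hl hc
  obtain ⟨B, _, hB1, hB2⟩ := remove hL hl hA
  obtain ⟨n, hn⟩ := hQ2 B (quad_of_cnt hB1) L
  exact absurd (hB2 n) (by omega)

theorem amplify :
    (∀ A : Set ℕ, Quad A → ∀ K : ℕ, ∃ n, K < rep A n) ↔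
    ∃ F : ℕ → ℕ, Tendsto F atTop atTop ∧
      ∀ A : Set ℕ, (∀ᶠ N : ℕ in atTop, Real.sqrt N ≤ F N * (A ∩ Set.Icc 1 N).ncard) →
        (∀ l : ℕ, ∃ᶠ N : ℕ in atTop, (F N : ℝ) * quiet A l (F N) N < Real.sqrt N) ∨
        (∃ l : ℕ, ∃ᶠ N : ℕ in atTop, (F N : ℝ) * Real.sqrt N < popular A l (F N) N) := by
  constructor
  · intro hQ2
    have h1 : ∀ l L : ℕ, ∃ M : ℕ, 1 ≤ l → 1 ≤ L → ∀ A : Set ℕ, ∃ N ≤ M, ¬ Good l L N A := by
      intro l L
      by_cases hlL : 1 ≤ l ∧ 1 ≤ L
      · obtain ⟨M, hM⟩ := exists_scale hQ2 l L hlL.1 hlL.2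
        exact ⟨M, fun _ _ => hM⟩
      · exact ⟨0, fun h2 h3 => (hlL ⟨h2, h3⟩).elim⟩
    choose M hM using h1
    let M' : ℕ → ℕ := fun L => L + ∑ i ∈ Finset.range (L + 1), ∑ j ∈ Finset.range (L + 1), M i j
    have hM'1 : ∀ L, L ≤ M' L := fun L => Nat.le_add_right _ _
    have hM'2 : ∀ l L, l ≤ L → M l L ≤ M' L := by
      intro l L hlL
      have h2 : M l L ≤ ∑ j ∈ Finset.range (L + 1), M l j :=
        Finset.single_le_sum (f := fun j => M l j) (fun _ _ => Nat.zero_le _)
          (Finset.mem_range.2 (by omega))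
      have h3 : ∑ j ∈ Finset.range (L + 1), M l j ≤
          ∑ i ∈ Finset.range (L + 1), ∑ j ∈ Finset.range (L + 1), M i j :=
        Finset.single_le_sum (f := fun i => ∑ j ∈ Finset.range (L + 1), M i j)
          (fun _ _ => Nat.zero_le _) (Finset.mem_range.2 (by omega))
      exact (h2.trans h3).trans (Nat.le_add_left _ _)
    have hM'3 : Monotone M' := by
      intro x y hxy
      have hr : Finset.range (x + 1) ⊆ Finset.range (y + 1) := by
        intro i hi
        rw [Finset.mem_range] at hi ⊢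
        omega
      have h2 : ∑ i ∈ Finset.range (x + 1), ∑ j ∈ Finset.range (x + 1), M i j ≤
          ∑ i ∈ Finset.range (y + 1), ∑ j ∈ Finset.range (y + 1), M i j :=
        (Finset.sum_le_sum fun i _ => Finset.sum_le_sum_of_subset hr).trans
          (Finset.sum_le_sum_of_subset hr)
      exact Nat.add_le_add hxy h2
    have hex : ∀ N : ℕ, ∃ L, N ≤ M' L := fun N => ⟨N, hM'1 N⟩
    let F : ℕ → ℕ := fun N => Nat.find (hex N)
    have hF1 : ∀ N L, N ≤ M' L → F N ≤ L := fun N L h => Nat.find_min' (hex N) h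
    have hF2 : ∀ N k, M' k < N → k < F N := by
      intro N k hk
      by_contra hc
      have h2 : N ≤ M' (F N) := Nat.find_spec (hex N)
      have h3 : M' (F N) ≤ M' k := hM'3 (by omega)
      omega
    refine ⟨F, ?_, ?_⟩
    · rw [tendsto_atTop]
      intro k
      filter_upwards [eventually_gt_atTop (M' k)] with N hN
      exact (hF2 N k hN).le
    · intro A _
      by_contra hc
      push Not at hc
      obtain ⟨⟨l, hl⟩, hpop⟩ := hc
      have hpop' := hpop (2 * max l 1)
      rw [eventually_atTop] at hl hpop'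
      obtain ⟨N1, hN1⟩ := hl
      obtain ⟨N2, hN2⟩ := hpop'
      set l' := max l 1 with hl'
      set N0 := max N1 N2 with hN0
      set L := max l' (2 * N0 + 2) with hL
      have hl1 : 1 ≤ l' := le_max_right _ _
      have hL1 : 1 ≤ L := hl1.trans (le_max_left _ _)
      have hL2 : 2 * N0 + 2 ≤ L := le_max_right _ _
      obtain ⟨N, hNM, hbad⟩ := hM l' L hl1 hL1 A
      apply hbad
      have hNM' : N ≤ M' L := hNM.trans (hM'2 l' L (le_max_left _ _))
      have hFL : F N ≤ L := hF1 N L hNM'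
      have hFLr : (F N : ℝ) ≤ L := by exact_mod_cast hFL
      rcases lt_or_ge N N0 with hN | hN
      · constructor
        · have h2 : Real.sqrt N ≤ L := by
            rw [Real.sqrt_le_left (by positivity)]
            have h3 : N ≤ L ^ 2 := by
              have h4 : N ≤ L := by omega
              exact h4.trans (Nat.le_self_pow two_ne_zero L)
            exact_mod_cast h3
          have h3 : (0 : ℝ) ≤ quiet A l' L N := by positivity
          have h4 : (0 : ℝ) ≤ L := by positivity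
          nlinarith
        · rw [popular_eq_zero]
          · simp only [Nat.cast_zero]
            positivity
          · intro n hn
            have := rep_le A n
            omega
      · have h2 := hN1 N (by omega)
        have h3 := hN2 N (by omega)
        constructor
        · have h4 : quiet A l (F N) N ≤ quiet A l' L N := quiet_mono (le_max_left _ _) hFL
          have h5 : (quiet A l (F N) N : ℝ) ≤ quiet A l' L N := by exact_mod_cast h4
          have h6 : (0 : ℝ) ≤ quiet A l (F N) N := by positivity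
          calc Real.sqrt N ≤ F N * quiet A l (F N) N := h2
            _ ≤ L * (1 + quiet A l' L N) := by
                gcongr
                linarith
        · have h4 : popular A (2 * l') L N ≤ popular A (2 * l') (F N) N := popular_anti hFL
          have h5 : (popular A (2 * l') L N : ℝ) ≤ popular A (2 * l') (F N) N := by
            exact_mod_cast h4
          calc (popular A (2 * l') L N : ℝ) ≤ popular A (2 * l') (F N) N := h5
            _ ≤ F N * Real.sqrt N := h3
            _ ≤ L * Real.sqrt N := by gcongr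
  · rintro ⟨F, hF, hmain⟩ A hA K
    by_contra hc
    push Not at hc
    obtain ⟨C, hC⟩ := cnt_of_quad hA
    have hcnt : ∀ᶠ N : ℕ in atTop, Real.sqrt N ≤ 2 * C * (cnt A N : ℝ) := by
      filter_upwards [eventually_gt_atTop (C ^ 2)] with N hN
      have h1 := hC N
      have h2 : (C : ℝ) < Real.sqrt N := by
        apply Real.lt_sqrt_of_sq_lt
        exact_mod_cast hN
      have h3 : cnt A N ≠ 0 := by
        intro h4
        rw [h4] at h1
        simp only [Nat.cast_zero, add_zero, mul_one] at h1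
        linarith
      have h4 : (1 : ℝ) ≤ cnt A N := by
        exact_mod_cast Nat.one_le_iff_ne_zero.2 h3
      have h5 : (0 : ℝ) ≤ C := by positivity
      calc Real.sqrt N ≤ C * (1 + cnt A N : ℝ) := h1
        _ ≤ C * (2 * cnt A N) := by
            gcongr
            linarith
        _ = _ := by ring
    have hev : ∀ᶠ N : ℕ in atTop, K < F N ∧ 2 * C ≤ F N ∧
        Real.sqrt N ≤ 2 * C * (cnt A N : ℝ) := by
      filter_upwards [hF.eventually_gt_atTop K, hF.eventually_ge_atTop (2 * C), hcnt]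
        with N h1 h2 h3
      exact ⟨h1, h2, h3⟩
    have hev2 : ∀ᶠ N : ℕ in atTop, K < F N ∧ Real.sqrt N ≤ F N * (cnt A N : ℝ) := by
      filter_upwards [hev] with N hN
      obtain ⟨h1, h2, h3⟩ := hN
      refine ⟨h1, h3.trans ?_⟩
      have h4 : (2 * C : ℝ) ≤ F N := by exact_mod_cast h2
      gcongr
    rcases hmain A (by
      filter_upwards [hev2] with N hN
      rw [cnt_eq]
      exact hN.2) with h1 | ⟨l, h1⟩
    · obtain ⟨N, h2, h3⟩ := ((h1 0).and_eventually hev2).exists
      have h4 : quiet A 0 (F N) N = cnt A N := by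
        rw [quiet_eq, cnt, cnt]
        congr 1
        ext x
        rw [mem_elts, mem_elts]
        constructor
        · rintro ⟨h5, h6⟩
          exact ⟨h5, h6.1⟩
        · rintro ⟨h5, h6⟩
          refine ⟨h5, h6, h5.1, fun a _ _ => ?_⟩
          exact (hc (a + x)).trans_lt h3.1
      rw [h4] at h2
      linarith [h3.2]
    · obtain ⟨N, h2, h3⟩ := (h1.and_eventually hev2).exists
      rw [popular_eq_zero] at h2
      · simp only [Nat.cast_zero] at h2
        have : (0 : ℝ) ≤ (F N : ℝ) * Real.sqrt N := by positivity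
        linarith
      · intro n _
        exact (hc n).trans_lt h3.1

/-- **Self-amplification of the strong Erdős–Turán conjecture (Q2).** The following are
equivalent.
1. Q2: every infinite `A` with `a_n ≤ C n ^ 2` has unbounded `r_A`.
2. For every such `A` and all `K`, `L` some `a ∈ A` has in some dyadic interval more than `L`
   popular partners, that is, elements `b > a` of `A` with `r_A(a + b) > K`. (So the numbers
   `n` with `r_A(n) > K` cannot be boundedly many in all the dyadic intervals.)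
3. There is a universal `F → ∞` such that every `A` with at least `√N / F(N)` elements up to `N`
   (for large `N`) has one of the following properties. (I) For every `l` and infinitely many
   `N`, all but `√N / F(N)` elements `b ≤ N` of `A` have a partner `a ∈ A`, `a ≤ b / l`, with
   `r_A(a + b) ≥ F(N)`; (II) for some `l` and infinitely many `N` there are more than
   `F(N) √N` pairs `a < b ≤ N` of elements of `A` with `a ≥ N / l` and `r_A(a + b) ≥ F(N)`. -/
theorem result :
    List.TFAE [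
      ∀ A : Set ℕ, Quad A → ∀ K : ℕ, ∃ n, K < rep A n,
      ∀ A : Set ℕ, Quad A → ∀ K L : ℕ, ∃ a ∈ A, ∃ N, L < partners A K a N,
      ∃ F : ℕ → ℕ, Tendsto F atTop atTop ∧
        ∀ A : Set ℕ, (∀ᶠ N : ℕ in atTop, Real.sqrt N ≤ F N * (A ∩ Set.Icc 1 N).ncard) →
          (∀ l : ℕ, ∃ᶠ N : ℕ in atTop, (F N : ℝ) * quiet A l (F N) N < Real.sqrt N) ∨
          (∃ l : ℕ, ∃ᶠ N : ℕ in atTop, (F N : ℝ) * Real.sqrt N < popular A l (F N) N)] := by
  tfae_have 1 ↔ 3 := amplify
  tfae_have 1 → 2 := by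
    intro hQ2 A hA K L
    by_contra hc
    push Not at hc
    obtain ⟨l, L', hl, hL', hgood⟩ := good_of_star hA hc
    obtain ⟨B, _, hB1, hB2⟩ := remove hL' hl hgood
    obtain ⟨n, hn⟩ := hQ2 B (quad_of_cnt hB1) L'
    exact absurd (hB2 n) (by omega)
  tfae_have 2 → 1 := by
    intro h A hA K
    obtain ⟨a, ha, N, hN⟩ := h A hA K 0
    have h1 : {b : ℕ | b ∈ A ∧ a < b ∧ N ≤ b ∧ b < 2 * N ∧ K < rep A (a + b)}.Nonempty := by
      by_contra hc
      rw [Set.not_nonempty_iff_eq_empty] at hc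
      rw [partners, hc, Set.ncard_empty] at hN
      omega
    obtain ⟨b, hb⟩ := h1
    exact ⟨a + b, hb.2.2.2.2⟩
  tfae_finish

end Pool.Agent.Results.MP_12a1af_nt.SelfAmplification
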